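import Pool.Agent.TH14.CC.Grad

/-!
# MP_01ebeb_al, Q1: disproof

The Markov quiver `Q` is `2`-acyclic, and for every non-degenerate potential `W` on `Q` the
Caldero-Chapoton algebra `A_{Q,W}` is different from the cluster algebra `A_Q`.

Reason.  Non-degeneracy of `W` forces the cubic part of `W`, a tensor of format `2 × 2 × 2`, to be
concise.  Hence for a suitable `a` in `ℂ²` the representation `M` with dimension vector `(1, 1, 0)`
on which the two arrows `0 → 1` act by `a 0` and `a 1` has `g`-vector `(1, -1, 0)`, and its
Caldero-Chapoton function is `(x₀² + x₁² + x₂²) / (x₀ x₁)`, a non-constant element of degree `0`.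
But all cluster variables are homogeneous of degree `1`.

The definitions (quivers, completed path algebras, potentials, mutation, non-degeneracy,
decorated representations, `g`-vectors, quiver Grassmannians, Euler characteristics,
Caldero-Chapoton functions, cluster algebras) are in `Pool.Agent.TH14.CC.Def`.
-/

namespace Pool.Agent.Results.MP_01ebeb_al.MarkovCounterexample

open Pool.Agent.TH14.CC

theorem result :
    ∃ (n : ℕ) (Q : Quiv n), Q.TwoAcyclic ∧
      ∀ W : PS Q, Nondeg W → ccAlg W ≠ clusterAlg Q :=
  ⟨3, markov, markov_twoAcyclic, main⟩

end Pool.Agent.Results.MP_01ebeb_al.MarkovCounterexample
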